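import Pool.Agent.Lib_helper92.PrimeEnergy2

/-!
# The reciprocal differences of an arbitrary finite set of primes: explicit absolute constant
-/

namespace Pool.Agent.Results.MP_3aed06_nt.ExplicitConstant

/-- `S(p_1, …, p_t)`, the sum of `1 / (p_j - p_i)` over all pairs of indices `i < j`. -/
noncomputable def S {t : ℕ} (p : Fin t → ℕ) : ℝ :=
  ∑ i : Fin t, ∑ j : Fin t, if i < j then 1 / ((p j : ℝ) - (p i : ℝ)) else 0

/-- For every `t ≥ 1` and all primes `p_1 < … < p_t` one has `S(p_1, …, p_t) < 6403 t`. -/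
theorem result (t : ℕ) (ht : 1 ≤ t) (p : Fin t → ℕ) (hp : ∀ i, (p i).Prime)
    (hmono : ∀ i j, i < j → p i < p j) : S p < 6403 * (t : ℝ) := by
  classical
  have hsm : StrictMono p := fun i j h => hmono i j h
  have hinj : Function.Injective p := hsm.injective
  set A : Finset ℕ := Finset.univ.map ⟨p, hinj⟩ with hA
  have hmem : ∀ q ∈ A, q.Prime := by
    intro q hq
    rw [hA, Finset.mem_map] at hq
    obtain ⟨i, _, rfl⟩ := hq
    exact hp i
  have hcard : (A.card : ℝ) = t := by
    rw [hA, Finset.card_map, Finset.card_univ, Fintype.card_fin]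
  have h1 := Pool.Agent.Lib_helper92.reciprocal_sum_le hmem
  have h2 : ∑ a ∈ A, ∑ b ∈ A.filter (fun b => a < b), (1 : ℝ) / ((b : ℝ) - (a : ℝ)) = S p := by
    unfold S
    rw [hA, Finset.sum_map]
    refine Finset.sum_congr rfl fun i _ => ?_
    rw [Finset.sum_filter, Finset.sum_map]
    refine Finset.sum_congr rfl fun j _ => ?_
    simp only [Function.Embedding.coeFn_mk, hsm.lt_iff_lt]
  rw [h2, hcard] at h1
  have h3 : (1 : ℝ) ≤ t := by exact_mod_cast ht
  linarith

end Pool.Agent.Results.MP_3aed06_nt.ExplicitConstant
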